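import Mathlib
import Pool.Agent.Lib.Helper28.CostBound

/-!
# The cost matrix grows at least linearly in the decay rate

For `m < n`, every `A` and every stable closed-loop matrix `A - B F` (with `B` of size `n × m`),
`decayRate (A - B F) ≤ 2 n ‖A‖² ‖X₀‖`, where `X₀` is the cost matrix.
-/

open scoped Matrix.Norms.L2Operator Matrix ComplexOrder
open MeasureTheory Filter Topology Set

namespace Pool.Agent.Results.MP_cf5fc4_an.LinearCostBound

noncomputable section

/-- A complex square matrix is stable if every eigenvalue has negative real part. -/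
def IsStable {n : ℕ} (M : Matrix (Fin n) (Fin n) ℂ) : Prop :=
  ∀ z ∈ spectrum ℂ M, z.re < 0

/-- The decay rate `min {-Re z : z an eigenvalue of M}` of a matrix (the spectrum is finite and
nonempty when `0 < n`, so the infimum is a minimum). -/
def decayRate {n : ℕ} (M : Matrix (Fin n) (Fin n) ℂ) : ℝ :=
  sInf ((fun z : ℂ => -z.re) '' spectrum ℂ M)

/-- The cost matrix `X₀ = ∫₀^∞ e^{t M*} e^{t M} dt`. -/
def costMatrix {n : ℕ} (M : Matrix (Fin n) (Fin n) ℂ) : Matrix (Fin n) (Fin n) ℂ :=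
  ∫ t in Ioi (0 : ℝ), NormedSpace.exp (t • Mᴴ) * NormedSpace.exp (t • M)

/-- **The cost matrix blows up at least linearly with the decay rate.** Let `m < n` and let `A` be
a complex `n × n` matrix. For all `B`, `F` such that `A - B F` is stable, the decay rate of
`A - B F` is at most `2 n ‖A‖² ‖X₀‖`, with the operator norms induced by the Euclidean norm.
Consequently there is a function `G`, depending only on `A`, with `G → ∞` at infinity and
`G (decayRate (A - B F)) ≤ ‖X₀‖` whenever `A - B F` is stable. -/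
theorem result (n m : ℕ) (hmn : m < n) (A : Matrix (Fin n) (Fin n) ℂ) :
    (∀ (B : Matrix (Fin n) (Fin m) ℂ) (F : Matrix (Fin m) (Fin n) ℂ), IsStable (A - B * F) →
      decayRate (A - B * F) ≤ 2 * n * ‖A‖ ^ 2 * ‖costMatrix (A - B * F)‖) ∧
    ∃ G : ℝ → ℝ, Tendsto G atTop atTop ∧
      ∀ (B : Matrix (Fin n) (Fin m) ℂ) (F : Matrix (Fin m) (Fin n) ℂ), IsStable (A - B * F) →
        G (decayRate (A - B * F)) ≤ ‖costMatrix (A - B * F)‖ := by
  have hn : 0 < n := by omega
  have : Nonempty (Fin n) := ⟨⟨0, hn⟩⟩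
  have main : ∀ (B : Matrix (Fin n) (Fin m) ℂ) (F : Matrix (Fin m) (Fin n) ℂ),
      IsStable (A - B * F) → 0 < decayRate (A - B * F) ∧
      decayRate (A - B * F) ≤ 2 * n * ‖A‖ ^ 2 * ‖costMatrix (A - B * F)‖ := by
    intro B F hst
    set C := A - B * F with hC
    set γ := decayRate C with hγdef
    set X := costMatrix C with hX
    -- the spectrum is finite and nonempty
    have hfin : (spectrum ℂ C).Finite := Matrix.finite_spectrum C
    have hne : (spectrum ℂ C).Nonempty := spectrum.nonempty C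
    have hfin' : ((fun z : ℂ => -z.re) '' spectrum ℂ C).Finite := hfin.image _
    have hγpos : 0 < γ := by
      obtain ⟨z, hz, hz'⟩ := hfin'.isCompact.sInf_mem (hne.image _)
      change 0 < sInf ((fun z : ℂ => -z.re) '' spectrum ℂ C)
      rw [← hz']
      have := hst z hz
      change 0 < -z.re
      linarith
    have hγ : ∀ z ∈ spectrum ℂ C, z.re ≤ -γ := by
      intro z hz
      have h1 : γ ≤ -z.re := csInf_le hfin'.bddBelow ⟨z, hz, rfl⟩
      linarith
    refine ⟨hγpos, ?_⟩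
    have hCu : IsUnit C.det := by
      rw [← Matrix.isUnit_iff_isUnit_det]
      by_contra hcon
      have h0 : (0 : ℂ) ∈ spectrum ℂ C := by
        rw [spectrum.zero_mem_iff]
        exact hcon
      have := hst 0 h0
      simp at this
    have hlyap : Cᴴ * X + X * C = -1 :=
      Pool.Agent.Lib.Helper28.CostBound.lyapunov hn C hst
    have hpsd : X.PosSemidef := Pool.Agent.Lib.Helper28.CostBound.posSemidef hn C hst
    -- a nonzero vector killed by `F`
    obtain ⟨v, hv0, hFv⟩ : ∃ v : Fin n → ℂ, v ≠ 0 ∧ F *ᵥ v = 0 := by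
      have h1 : (Matrix.toLin' F).ker ≠ ⊥ :=
        LinearMap.ker_ne_bot_of_finrank_lt (by simpa using hmn)
      obtain ⟨v, hv, hv0⟩ := (Submodule.ne_bot_iff _).mp h1
      refine ⟨v, hv0, ?_⟩
      rw [← Matrix.toLin'_apply]
      exact hv
    have hCv : C *ᵥ v = A *ᵥ v := by
      rw [hC, Matrix.sub_mulVec, ← Matrix.mulVec_mulVec, hFv, Matrix.mulVec_zero, sub_zero]
    have hkey := Pool.Agent.Lib.Helper28.CostBound.key_inequality C X hCu hpsd hlyap (A *ᵥ v)
    have hback : C⁻¹ *ᵥ (A *ᵥ v) = v := by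
      rw [← hCv, Matrix.mulVec_mulVec, Matrix.nonsing_inv_mul _ hCu, Matrix.one_mulVec]
    rw [hback] at hkey
    have htr := Pool.Agent.Lib.Helper28.CostBound.neg_trace_inv_le C γ hγpos hγ hCu
    set N := Pool.Agent.Lib.Helper28.CostBound.nsq v with hN
    have hNpos : 0 < N := Pool.Agent.Lib.Helper28.CostBound.nsq_pos hv0
    -- bound `u* X u ≤ ‖X‖ ‖u‖²` with `u = A v`
    have hquad : (star (A *ᵥ v) ⬝ᵥ X *ᵥ (A *ᵥ v)).re ≤ ‖X‖ * (‖A‖ ^ 2 * N) := by
      let ve : EuclideanSpace ℂ (Fin n) := WithLp.toLp 2 v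
      let ue : EuclideanSpace ℂ (Fin n) := WithLp.toLp 2 (A *ᵥ v)
      let xe : EuclideanSpace ℂ (Fin n) := WithLp.toLp 2 (X *ᵥ (A *ᵥ v))
      have h1 : ‖ue‖ ≤ ‖A‖ * ‖ve‖ := Matrix.l2_opNorm_mulVec A ve
      have h2 : ‖xe‖ ≤ ‖X‖ * ‖ue‖ := Matrix.l2_opNorm_mulVec X ue
      have h3 : ‖ve‖ ^ 2 = N := (Pool.Agent.Lib.Helper28.CostBound.nsq_eq_norm ve).symm
      have h4 : (star (A *ᵥ v) ⬝ᵥ X *ᵥ (A *ᵥ v)) = inner ℂ ue xe := by
        rw [EuclideanSpace.inner_eq_star_dotProduct, dotProduct_comm]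
      rw [h4]
      calc (inner ℂ ue xe).re ≤ ‖inner ℂ ue xe‖ := Complex.re_le_norm _
        _ ≤ ‖ue‖ * ‖xe‖ := norm_inner_le_norm _ _
        _ ≤ ‖ue‖ * (‖X‖ * ‖ue‖) := mul_le_mul_of_nonneg_left h2 (norm_nonneg _)
        _ = ‖X‖ * ‖ue‖ ^ 2 := by ring
        _ ≤ ‖X‖ * (‖A‖ * ‖ve‖) ^ 2 :=
            mul_le_mul_of_nonneg_left (pow_le_pow_left₀ (norm_nonneg _) h1 2) (norm_nonneg _)
        _ = ‖X‖ * (‖A‖ ^ 2 * N) := by rw [mul_pow, h3]
    have hquad0 : 0 ≤ (star (A *ᵥ v) ⬝ᵥ X *ᵥ (A *ᵥ v)).re := by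
      have := hpsd.dotProduct_mulVec_nonneg (A *ᵥ v)
      exact (Complex.le_def.mp this).1
    have hfinal : N ≤ (2 * (n / γ)) * (‖X‖ * (‖A‖ ^ 2 * N)) := by
      refine hkey.trans ?_
      refine mul_le_mul (by linarith) hquad hquad0 (by positivity)
    have h5 : N * γ ≤ N * (2 * n * ‖A‖ ^ 2 * ‖X‖) := by
      have h6 := mul_le_mul_of_nonneg_right hfinal hγpos.le
      have h7 : (2 * (n / γ)) * (‖X‖ * (‖A‖ ^ 2 * N)) * γ = N * (2 * n * ‖A‖ ^ 2 * ‖X‖) := by
        field_simp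
      rw [h7] at h6
      exact h6
    exact le_of_mul_le_mul_left h5 hNpos
  refine ⟨fun B F h => (main B F h).2, fun x => x / (2 * n * (‖A‖ ^ 2 + 1)), ?_, ?_⟩
  · have h1 : (0 : ℝ) < 2 * n * (‖A‖ ^ 2 + 1) := by
      have : (0 : ℝ) < n := by exact_mod_cast hn
      positivity
    exact tendsto_id.atTop_div_const h1
  · intro B F h
    obtain ⟨h0, h1⟩ := main B F h
    have h2 : (0 : ℝ) < 2 * n * (‖A‖ ^ 2 + 1) := by
      have : (0 : ℝ) < n := by exact_mod_cast hn
      positivity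
    rw [div_le_iff₀ h2]
    have h3 : 0 ≤ ‖costMatrix (A - B * F)‖ := norm_nonneg _
    have h4 : (0 : ℝ) ≤ n := Nat.cast_nonneg n
    nlinarith [mul_nonneg h4 h3]

end

end Pool.Agent.Results.MP_cf5fc4_an.LinearCostBound
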